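import Pool.Agent.K3h99.WF.Stm

/-!
# Weighted complete intersections: two coordinates whose ratios determine the others
-/

set_option autoImplicit false

namespace Pool.Agent.K3h35.WF

open MvPolynomial Pool.Agent.H39R2.Fuj Pool.Agent.R920.WC Pool.Agent.K3h99.WF
open Pool.Agent.H61.Fu (comp prod_single lt_of_ne_single unitV exists_ratio root)

theorem prod_zpow_sum {G ι : Type*} [CommGroup G] (s : Finset ι) (x : G) (g : ι → ℤ) :
    ∏ i ∈ s, x ^ g i = x ^ ∑ i ∈ s, g i := by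
  classical
  induction s using Finset.induction_on with
  | empty => simp
  | insert i s hi ih => rw [Finset.prod_insert hi, Finset.sum_insert hi, ih, zpow_add]

theorem coset {A b : ℕ} (hc : Nat.Coprime A b) (hb : 0 < b) {σ τ σ' τ' : ℤ}
    (h : σ * A + τ * b = σ' * A + τ' * b) : ∃ t : ℤ, σ = σ' + t * b ∧ τ = τ' - t * A := by
  have h1 : (b : ℤ) ∣ (σ - σ') * A := ⟨τ' - τ, by linarith⟩
  have h2 : IsCoprime (b : ℤ) (A : ℤ) := Nat.isCoprime_iff_coprime.2 hc.symm
  obtain ⟨t, ht⟩ := h2.dvd_of_dvd_mul_right h1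
  have hb' : (b : ℤ) ≠ 0 := by exact_mod_cast hb.ne'
  have h3 : σ = σ' + t * b := by linarith [mul_comm (b : ℤ) t]
  refine ⟨t, h3, ?_⟩
  rw [h3] at h
  have h4 : (b : ℤ) * τ = b * (τ' - t * A) := by linarith
  exact mul_left_cancel₀ hb' h4

/-- the inequality behind the bound on shifts -/
theorem arith {A b P Q D s xn xn' yn' : ℤ} (hP : 1 ≤ P) (hPb : P ≤ b) (hQ : 1 ≤ Q) (hQA : Q ≤ A)
    (hs : s = P * A + Q * b) (hD : D ≤ 2 * (s - A * b - 1)) (h1 : Q * xn ≤ D)
    (h2 : P * yn' ≤ D) (h3 : xn' * A + yn' * b = D) : xn < xn' + 2 * b := by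
  by_contra hcon
  push Not at hcon
  have hA : 0 < A := by linarith
  have hb : 0 < b := by linarith
  have h4 : Q * (xn' + 2 * b) ≤ D :=
    (mul_le_mul_of_nonneg_left hcon (by linarith)).trans h1
  have h5 : (P * A) * (Q * (xn' + 2 * b)) ≤ (P * A) * D :=
    mul_le_mul_of_nonneg_left h4 (by positivity)
  have h6 : (Q * b) * (P * yn') ≤ (Q * b) * D :=
    mul_le_mul_of_nonneg_left h2 (by positivity)
  have h7 : 2 * (A * b * P * Q) ≤ D * (s - P * Q) := by
    have e1 : (P * A) * (Q * (xn' + 2 * b)) = P * Q * (xn' * A + yn' * b) -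
      (Q * b) * (P * yn') + 2 * (A * b * P * Q) := by ring
    rw [e1, h3] at h5
    rw [hs]
    linarith
  have h8 : 0 < s - P * Q := by
    have e1 : P * Q ≤ P * A := mul_le_mul_of_nonneg_left hQA (by linarith)
    have e2 : 0 < Q * b := by positivity
    rw [hs]
    linarith
  have h9 : D * (s - P * Q) ≤ 2 * (s - A * b - 1) * (s - P * Q) :=
    mul_le_mul_of_nonneg_right hD h8.le
  have h10 : 0 ≤ s * ((A - Q) * (b - P)) := by
    have e1 : 0 ≤ s := by rw [hs]; positivity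
    exact mul_nonneg e1 (mul_nonneg (by linarith) (by linarith))
  have h11 : (s - A * b) * (s - P * Q) = A * b * P * Q - s * ((A - Q) * (b - P)) := by
    rw [hs]; ring
  have h12 : 2 * (s - A * b - 1) * (s - P * Q) =
    2 * ((s - A * b) * (s - P * Q)) - 2 * (s - P * Q) := by ring
  linarith

variable {N : ℕ} {κ : Type*} {B : Type*} [CommRing B] [Algebra ℂ B]

/-- two coordinates `p`, `q` and the exponents of the others -/
structure St (a u : Fin N → ℕ) (e : ℕ) (v : Fin N → ℂ) (y : Fin N → B) (p q : Fin N) (X Y : Bˣ)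
    (xx yy : Fin N → ℤ) (x0 y0 : ℕ) : Prop where
  hpq : p ≠ q
  hvp : v p ≠ 0
  hvq : v q ≠ 0
  ha : ∀ l, v l ≠ 0 → 1 < a l
  hu : ∀ l, v l ≠ 0 → 1 < u l
  hcop : ∀ i k, i ≠ k → Nat.Coprime (a i) (a k)
  hz : ∀ l, v l = 0 → y l = 0
  hdeg : ∀ l, v l ≠ 0 → xx l * a p + yy l * a q = a l
  hval : ∀ l, v l ≠ 0 → y l = ((X ^ xx l * Y ^ yy l : Bˣ) : B) * algebraMap ℂ B (v l)
  xp : xx p = 1
  yp : yy p = 0
  xq : xx q = 0
  yq : yy q = 1
  h0 : x0 * a p + y0 * a q = e
  hx0 : x0 < a q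
  hy0 : y0 < a p
  hle : ∀ l, v l ≠ 0 → l ≠ p → l ≠ q → xx l ≤ x0 ∧ yy l ≤ y0
  hE : ∀ C : Finset (Fin N), (∀ l ∈ C, v l ≠ 0 ∧ l ≠ p ∧ l ≠ q) →
    ∑ l ∈ C, (u l - 1) * (a l - 1) + (a p - 1) * (a q - 1) + 1 ≤ e
  hne : X ^ a q ≠ Y ^ a p

variable {a u : Fin N → ℕ} {d : κ → ℕ} {e : ℕ} {f : κ → MvPolynomial (Fin N) ℂ}
  {J : Fin N → κ} {v : Fin N → ℂ} {y : Fin N → B} {p q : Fin N} {X Y : Bˣ} {xx yy : Fin N → ℤ}
  {x0 y0 : ℕ}

theorem St.swap (T : St a u e v y p q X Y xx yy x0 y0) : St a u e v y q p Y X yy xx y0 x0 where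
  hpq := T.hpq.symm
  hvp := T.hvq
  hvq := T.hvp
  ha := T.ha
  hu := T.hu
  hcop := T.hcop
  hz := T.hz
  hdeg := fun l hl => by rw [add_comm, T.hdeg l hl]
  hval := fun l hl => by rw [T.hval l hl, mul_comm (X ^ xx l)]
  xp := T.yq
  yp := T.xq
  xq := T.yp
  yq := T.xp
  h0 := by rw [add_comm, T.h0]
  hx0 := T.hy0
  hy0 := T.hx0
  hle := fun l hl h1 h2 => (T.hle l hl h2 h1).symm
  hE := fun C hC => by
    rw [mul_comm (a q - 1)]
    exact T.hE C fun l hl => ⟨(hC l hl).1, (hC l hl).2.2, (hC l hl).2.1⟩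
  hne := T.hne.symm

theorem St.deg (T : St a u e v y p q X Y xx yy x0 y0) (n : Fin N → ℕ)
    (hn : ∀ l, v l = 0 → n l = 0) :
    (∑ l, (n l : ℤ) * xx l) * a p + (∑ l, (n l : ℤ) * yy l) * a q =
      ((∑ l, n l * a l : ℕ) : ℤ) := by
  rw [Finset.sum_mul, Finset.sum_mul, ← Finset.sum_add_distrib]
  push_cast
  refine Finset.sum_congr rfl fun l _ => ?_
  by_cases hl : v l = 0
  · rw [hn l hl]; simp
  · rw [← T.hdeg l hl]; ring

theorem St.prod (T : St a u e v y p q X Y xx yy x0 y0) (n : Fin N → ℕ)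
    (hn : ∀ l, v l = 0 → n l = 0) :
    ∏ l, y l ^ n l = ((X ^ (∑ l, (n l : ℤ) * xx l) * Y ^ (∑ l, (n l : ℤ) * yy l) : Bˣ) : B) *
      ∏ l, algebraMap ℂ B (v l) ^ n l := by
  rw [← prod_zpow_sum, ← prod_zpow_sum, ← Finset.prod_mul_distrib, Units.coe_prod,
    ← Finset.prod_mul_distrib]
  refine Finset.prod_congr rfl fun l _ => ?_
  by_cases hl : v l = 0
  · rw [hn l hl]; simp
  · rw [T.hval l hl, mul_pow, ← Units.val_pow_eq_pow_val]
    congr 2
    rw [mul_pow, ← zpow_natCast, ← zpow_natCast, ← zpow_mul, ← zpow_mul, mul_comm (xx l),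
      mul_comm (yy l)]

theorem unitProd (n : Fin N → ℕ) (hn : ∀ l, v l = 0 → n l = 0) :
    IsUnit (∏ l, algebraMap ℂ B (v l) ^ n l) := by
  refine (Finset.prod_induction _ IsUnit (fun _ _ => IsUnit.mul) isUnit_one ?_)
  intro l _
  by_cases hl : v l = 0
  · rw [hn l hl, pow_zero]; exact isUnit_one
  · exact (unitV hl).pow _

theorem St.rel (T : St a u e v y p q X Y xx yy x0 y0) (H : Rel a e f v y) (n : Fin N → ℕ)
    (hn : ∀ l, v l = 0 → n l = 0) (hd : ∑ l, n l * a l = e) :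
    X ^ (∑ l, (n l : ℤ) * xx l) * Y ^ (∑ l, (n l : ℤ) * yy l) = 1 := by
  have h1 := H.monoC Finset.univ n p 0 (by rw [zero_mul, add_zero, hd])
  rw [pow_zero, pow_zero, mul_one, mul_one, T.prod n hn] at h1
  have h2 := (unitProd (B := B) n hn).mul_right_cancel (h1.trans (one_mul _).symm)
  ext
  rw [h2, Units.val_one]

/-- the product of a monomial in `x_p`, `x_q`, `x_l` -/
theorem three {M : Type*} [AddCommMonoid M] {l : Fin N} (hpq : p ≠ q) (hl : l ≠ p)
    (hl' : l ≠ q) (s t r : ℕ) (g : Fin N → ℕ → M) (hg : ∀ l, g l 0 = 0) :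
    ∑ i, g i (if i = p then s else if i = q then t else if i = l then r else 0) =
      g p s + g q t + g l r := by
  classical
  have h1 : ∑ x ∈ ({p, q, l} : Finset (Fin N)),
      g x (if x = p then s else if x = q then t else if x = l then r else 0) =
      g p s + g q t + g l r := by
    rw [Finset.sum_insert (by simp [hpq, hl.symm]), Finset.sum_pair hl'.symm]
    simp [hpq.symm, hl, hl', add_assoc]
  rw [← h1]
  refine (Finset.sum_subset (Finset.subset_univ _) fun x _ hx => ?_).symm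
  simp only [Finset.mem_insert, Finset.mem_singleton, not_or] at hx
  simp [hx.1, hx.2.1, hx.2.2, hg]

theorem St.rel0 (T : St a u e v y p q X Y xx yy x0 y0) (H : Rel a e f v y) :
    X ^ (x0 : ℤ) * Y ^ (y0 : ℤ) = 1 := by
  classical
  have e1 : ∀ {M : Type} [AddCommMonoid M] (g : Fin N → ℕ → M) (hg : ∀ l, g l 0 = 0),
      ∑ i, g i (if i = p then x0 else if i = q then y0 else 0) = g p x0 + g q y0 := by
    intro M _ g hg
    have h1 : ∑ x ∈ ({p, q} : Finset (Fin N)), g x (if x = p then x0 else if x = q then y0 else 0)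
        = g p x0 + g q y0 := by
      rw [Finset.sum_pair T.hpq]
      simp [T.hpq.symm]
    rw [← h1]
    refine (Finset.sum_subset (Finset.subset_univ _) fun x _ hx => ?_).symm
    simp only [Finset.mem_insert, Finset.mem_singleton, not_or] at hx
    simp [hx.1, hx.2, hg]
  have h1 := T.rel H (fun i => if i = p then x0 else if i = q then y0 else 0) (by
    intro l hl
    have h2 : l ≠ p := fun h => T.hvp (h ▸ hl)
    have h3 : l ≠ q := fun h => T.hvq (h ▸ hl)
    simp [h2, h3]) (by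
      rw [e1 (fun i n => n * a i) (by simp)]
      exact T.h0)
  rw [e1 (fun i n => (n : ℤ) * xx i) (by simp), e1 (fun i n => (n : ℤ) * yy i) (by simp), T.xp,
    T.yp, T.xq, T.yq] at h1
  simpa using h1

/-- no monomial of degree `e` is shifted by one -/
theorem St.ne1 (T : St a u e v y p q X Y xx yy x0 y0) (H : Rel a e f v y) (n : Fin N → ℕ)
    (hn : ∀ l, v l = 0 → n l = 0) (hd : ∑ l, n l * a l = e) :
    ∑ l, (n l : ℤ) * xx l ≠ x0 + a q := by
  intro h
  have h1 := T.rel H n hn hd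
  have h2 := T.deg n hn
  rw [hd, ← T.h0, h] at h2
  have hq : (a q : ℤ) ≠ 0 := by
    have := T.ha q T.hvq
    exact_mod_cast (by omega : a q ≠ 0)
  have h3 : ∑ l, (n l : ℤ) * yy l = y0 - a p := by
    refine mul_right_cancel₀ hq ?_
    push_cast at h2
    linarith
  rw [h, h3, zpow_add, zpow_sub, zpow_natCast, zpow_natCast, zpow_natCast, zpow_natCast] at h1
  have h4 := T.rel0 H
  rw [zpow_natCast, zpow_natCast] at h4
  refine T.hne ?_
  have h5 : X ^ x0 * Y ^ y0 * (X ^ a q * (Y ^ a p)⁻¹) = 1 := by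
    rw [← h1]
    simp only [mul_assoc, mul_left_comm]
  rw [h4, one_mul] at h5
  exact mul_inv_eq_one.1 h5

/-- the bound on the exponents -/
theorem St.Qx (T : St a u e v y p q X Y xx yy x0 y0) (H : Rel a e f v y) (l : Fin N)
    (hl : v l ≠ 0) : ((y0 : ℤ) + 1) * xx l ≤ a l := by
  have hap := T.ha p T.hvp
  have haq := T.ha q T.hvq
  have hy0 : ((y0 : ℤ) + 1) ≤ a p := by exact_mod_cast T.hy0
  have hal : (0 : ℤ) < a l := by
    have := T.ha l hl
    exact_mod_cast (by omega : 0 < a l)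
  rcases le_or_gt (xx l) 0 with hx | hx
  · have : ((y0 : ℤ) + 1) * xx l ≤ 0 := mul_nonpos_of_nonneg_of_nonpos (by positivity) hx
    linarith
  rcases le_or_gt 0 (yy l) with hy | hy
  · rw [← T.hdeg l hl]
    have h1 : ((y0 : ℤ) + 1) * xx l ≤ a p * xx l := mul_le_mul_of_nonneg_right hy0 hx.le
    have h2 : 0 ≤ yy l * a q := by positivity
    linarith [mul_comm (xx l) (a p : ℤ)]
  have hlp : l ≠ p := by
    rintro rfl
    rw [T.yp] at hy
    exact lt_irrefl _ hy
  have hlq : l ≠ q := by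
    rintro rfl
    rw [T.yq] at hy
    linarith
  obtain ⟨δ, hδ⟩ := Int.eq_ofNat_of_zero_le hx.le
  obtain ⟨η, hη⟩ := Int.eq_ofNat_of_zero_le (by linarith : 0 ≤ - yy l)
  have hη' : yy l = - (η : ℤ) := by linarith
  have hδ0 : 0 < δ := by rw [hδ] at hx; exact_mod_cast hx
  have hη0 : 0 < η := by rw [hη'] at hy; exact_mod_cast (by linarith : (0 : ℤ) < η)
  have hdl := T.hdeg l hl
  rw [hδ, hη'] at hdl
  obtain ⟨r, hr⟩ : ∃ r, r = (x0 + a q) / δ := ⟨_, rfl⟩
  have hr1 : r * δ ≤ x0 + a q := by rw [hr]; exact Nat.div_mul_le_self _ _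
  have hr2 : x0 + a q < r * δ + δ := by
    rw [hr]
    have := Nat.lt_div_mul_add (a := x0 + a q) hδ0
    exact this
  have hδx0 : δ ≤ x0 := by
    have := (T.hle l hl hlp hlq).1
    rw [hδ] at this
    exact_mod_cast this
  by_cases hcase : a p ≤ y0 + r * η
  · exfalso
    refine T.ne1 H (fun i => if i = p then x0 + a q - r * δ else if i = q then y0 + r * η - a p
      else if i = l then r else 0) ?_ ?_ ?_
    · intro i hi
      have h2 : i ≠ p := fun h => T.hvp (h ▸ hi)
      have h3 : i ≠ q := fun h => T.hvq (h ▸ hi)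
      have h4 : i ≠ l := fun h => hl (h ▸ hi)
      simp [h2, h3, h4]
    · rw [three T.hpq hlp hlq _ _ _ (fun i n => n * a i) (by simp)]
      have h1 : (((x0 + a q - r * δ) * a p + (y0 + r * η - a p) * a q + r * a l : ℕ) : ℤ) = e := by
        rw [← T.h0]
        push_cast [Nat.cast_sub hr1, Nat.cast_sub hcase]
        rw [← hdl]
        ring
      exact_mod_cast h1
    · rw [three T.hpq hlp hlq _ _ _ (fun i n => (n : ℤ) * xx i) (by simp), T.xp, T.xq, hδ]
      push_cast [Nat.cast_sub hr1]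
      ring
  · have h1 : r * η + (y0 + 1) ≤ a p := by omega
    have h2 : a q + 1 ≤ r * δ := by omega
    rw [← T.hdeg l hl, hδ, hη']
    have h3 : (a q + 1) * η ≤ r * δ * η := Nat.mul_le_mul_right _ h2
    have h4 : (r * η + (y0 + 1)) * δ ≤ a p * δ := Nat.mul_le_mul_right _ h1
    have h3' : ((a q : ℤ) + 1) * η ≤ r * δ * η := by exact_mod_cast h3
    have h4' : ((r : ℤ) * η + (y0 + 1)) * δ ≤ a p * δ := by exact_mod_cast h4
    have h5 : (0 : ℤ) ≤ η := by positivity
    nlinarith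

/-- two monomials of degree `u_m a_m` differ by at most one shift -/
theorem St.shift (T : St a u e v y p q X Y xx yy x0 y0) (H : Rel a e f v y) {m : Fin N}
    (hm : v m ≠ 0) (hmp : m ≠ p) (hmq : m ≠ q) (n n' : Fin N → ℕ)
    (hn : ∀ l, v l = 0 → n l = 0) (hn' : ∀ l, v l = 0 → n' l = 0)
    (hd : ∑ l, n l * a l = u m * a m) (hd' : ∑ l, n' l * a l = u m * a m) :
    ∑ l, (n l : ℤ) * xx l < ∑ l, (n' l : ℤ) * xx l + 2 * a q := by
  have hap := T.ha p T.hvp
  have haq := T.ha q T.hvq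
  have h1 : ((y0 : ℤ) + 1) * ∑ l, (n l : ℤ) * xx l ≤ ((u m * a m : ℕ) : ℤ) := by
    rw [← hd, Finset.mul_sum]
    push_cast
    refine Finset.sum_le_sum fun l _ => ?_
    by_cases hl : v l = 0
    · rw [hn l hl]; simp
    · have h2 := mul_le_mul_of_nonneg_left (T.Qx H l hl) (Int.natCast_nonneg (n l))
      linarith
  have h2 : ((x0 : ℤ) + 1) * ∑ l, (n' l : ℤ) * yy l ≤ ((u m * a m : ℕ) : ℤ) := by
    rw [← hd', Finset.mul_sum]
    push_cast
    refine Finset.sum_le_sum fun l _ => ?_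
    by_cases hl : v l = 0
    · rw [hn' l hl]; simp
    · have h2 := mul_le_mul_of_nonneg_left (T.swap.Qx H l hl) (Int.natCast_nonneg (n' l))
      linarith
  have h3 := T.deg n' hn'
  rw [hd'] at h3
  have h4 := T.hE {m} (by simpa using ⟨hm, hmp, hmq⟩)
  rw [Finset.sum_singleton, ← T.h0] at h4
  obtain ⟨w, hw⟩ : ∃ w, u m = w + 2 := ⟨u m - 2, by have := T.hu m hm; omega⟩
  obtain ⟨c, hc⟩ : ∃ c, a m = c + 2 := ⟨a m - 2, by have := T.ha m hm; omega⟩
  obtain ⟨A, hA⟩ : ∃ A, a p = A + 1 := ⟨a p - 1, by omega⟩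
  obtain ⟨b, hb⟩ : ∃ b, a q = b + 1 := ⟨a q - 1, by omega⟩
  have h5 : (w + 1) * (c + 1) + A * b + 1 ≤ x0 * (A + 1) + y0 * (b + 1) := by
    rw [hw, hc, hA, hb] at h4
    exact h4
  refine arith (P := x0 + 1) (Q := y0 + 1) (A := a p) (D := ((u m * a m : ℕ) : ℤ)) (by linarith [Int.natCast_nonneg x0])
    (by exact_mod_cast T.hx0) (by linarith [Int.natCast_nonneg y0]) (by exact_mod_cast T.hy0) rfl ?_ h1 h2 h3
  rw [hw, hc, hA, hb]
  have h5' : ((w : ℤ) + 1) * (c + 1) + A * b + 1 ≤ x0 * (A + 1) + y0 * (b + 1) := by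
    exact_mod_cast h5
  have h6 : (0 : ℤ) ≤ w * c := by positivity
  push_cast
  nlinarith

/-- all other monomials cannot be shifted by one in the same direction -/
theorem St.comp_ne (T : St a u e v y p q X Y xx yy x0 y0) {g : MvPolynomial (Fin N) ℂ} {D : ℕ}
    (hg : IsWeightedHomogeneous a g D) (hv : eval v g = 0) (hy : aeval y g = 0)
    (m0 : Fin N →₀ ℕ) (hm0 : coeff m0 g ≠ 0) (hm0v : ∀ l, v l = 0 → m0 l = 0) (ε : ℤ)
    (hε : ε = 1 ∨ ε = -1)
    (h : ∀ n ∈ g.support, n ≠ m0 → (∀ l, v l = 0 → n l = 0) →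
      ∑ l, (n l : ℤ) * xx l = ∑ l, (m0 l : ℤ) * xx l + ε * a q) : False := by
  have hq : (a q : ℤ) ≠ 0 := by
    have := T.ha q T.hvq
    exact_mod_cast (by omega : a q ≠ 0)
  have hD : ∀ n ∈ g.support, ∑ l, n l * a l = D := by
    intro n hn
    have := hg (mem_support_iff.1 hn)
    rw [weight_eq] at this
    exact this
  obtain ⟨R, hR⟩ : ∃ R : Bˣ, R = X ^ (∑ l, (m0 l : ℤ) * xx l + ε * a q) *
    Y ^ (∑ l, (m0 l : ℤ) * yy l - ε * a p) := ⟨_, rfl⟩
  have hm0s : m0 ∈ g.support := mem_support_iff.2 hm0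
  have h1 := comp g v y hv hy m0 hm0 (R : B) (by
    intro n hn hne
    by_cases hnv : ∀ l, v l = 0 → n l = 0
    · have h2 := h n hn hne hnv
      have h3 := T.deg n hnv
      have h4 := T.deg m0 hm0v
      rw [hD n hn] at h3
      rw [hD m0 hm0s] at h4
      have h5 : ∑ l, (n l : ℤ) * yy l = ∑ l, (m0 l : ℤ) * yy l - ε * a p := by
        refine mul_right_cancel₀ hq ?_
        rw [h2] at h3
        linarith
      rw [T.prod n hnv, h2, h5, ← hR]
    · push Not at hnv
      obtain ⟨l, hl, hnl⟩ := hnv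
      rw [Finset.prod_eq_zero (Finset.mem_univ l) (by rw [T.hz l hl, zero_pow hnl]),
        Finset.prod_eq_zero (Finset.mem_univ l) (by rw [hl, map_zero, zero_pow hnl]), mul_zero])
  rw [T.prod m0 hm0v] at h1
  have h2 := (unitProd (B := B) m0 hm0v).mul_right_cancel h1
  have h3 := Units.ext h2
  rw [hR, zpow_add, zpow_sub] at h3
  obtain ⟨s, hs⟩ : ∃ s, s = ∑ l, (m0 l : ℤ) * xx l := ⟨_, rfl⟩
  obtain ⟨t, ht⟩ : ∃ t, t = ∑ l, (m0 l : ℤ) * yy l := ⟨_, rfl⟩
  rw [← hs, ← ht] at h3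
  have h4 : X ^ s * Y ^ t * (X ^ (ε * a q) * (Y ^ (ε * a p))⁻¹) = X ^ s * Y ^ t * 1 := by
    rw [mul_one]
    refine Eq.trans ?_ h3.symm
    simp only [mul_assoc, mul_left_comm, mul_comm]
  have h5 := mul_inv_eq_one.1 (mul_left_cancel h4)
  refine T.hne ?_
  rcases hε with rfl | rfl
  · rw [one_mul, one_mul, zpow_natCast, zpow_natCast] at h5
    exact h5
  · rw [neg_one_mul, neg_one_mul, zpow_neg, zpow_neg, zpow_natCast, zpow_natCast] at h5
    exact inv_injective h5

/-- a monomial without shift -/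
theorem St.exists_n (T : St a u e v y p q X Y xx yy x0 y0) (S : Sys a d f J u)
    (H : Rel a e f v y) {m : Fin N} (hm : v m ≠ 0) (hmp : m ≠ p) (hmq : m ≠ q) :
    ∃ n : Fin N → ℕ, (∀ l, v l = 0 → n l = 0) ∧ ∑ l, n l * a l = u m * a m ∧
      (∃ k, k ≠ m ∧ n k ≠ 0) ∧ ∑ l, (n l : ℤ) * xx l = u m * xx m ∧
      ∑ l, (n l : ℤ) * yy l = u m * yy m := by
  classical
  by_contra hcon
  have hq : (a q : ℤ) ≠ 0 := by
    have := T.ha q T.hvq
    exact_mod_cast (by omega : a q ≠ 0)
  have hq0 : 0 < a q := by have := T.ha q T.hvq; omega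
  have ham := T.ha m hm
  have hd := S.hu m ham
  have hc := S.hJ m ham
  obtain ⟨m0, hm0⟩ : ∃ m0 : Fin N →₀ ℕ, m0 = Finsupp.single m (u m) := ⟨_, rfl⟩
  rw [← hm0] at hc
  have hm0v : ∀ l, v l = 0 → m0 l = 0 := by
    intro l hl
    rw [hm0, Finsupp.single_eq_of_ne]
    intro h
    exact hm (h ▸ hl)
  have hm0s : ∀ g : Fin N → ℤ, ∑ l, (m0 l : ℤ) * g l = u m * g m := by
    intro g
    rw [Finset.sum_eq_single_of_mem m (Finset.mem_univ m)
      (fun l _ hl => by rw [hm0, Finsupp.single_eq_of_ne hl]; simp), hm0,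
      Finsupp.single_eq_same]
  have hsup : ∀ n ∈ (f (J m)).support, ∑ l, n l * a l = u m * a m := by
    intro n hn
    have := S.hf (J m) (mem_support_iff.1 hn)
    rw [weight_eq] at this
    rw [this, hd]
  -- the shift of the other monomials
  have hshift : ∀ n ∈ (f (J m)).support, n ≠ m0 → (∀ l, v l = 0 → n l = 0) →
      ∃ t : ℤ, (t = 1 ∨ t = -1) ∧ ∑ l, (n l : ℤ) * xx l = ∑ l, (m0 l : ℤ) * xx l + t * a q := by
    intro n hn hne hnv
    have h1 := T.deg n hnv
    have h2 := T.deg m0 hm0v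
    rw [hsup n hn] at h1
    rw [hsup m0 (mem_support_iff.2 hc)] at h2
    obtain ⟨t, ht1, ht2⟩ := coset (T.hcop p q T.hpq) hq0 (h1.trans h2.symm)
    refine ⟨t, ?_, ht1⟩
    have h3 := T.shift H hm hmp hmq n m0 hnv hm0v (hsup n hn) (hsup m0 (mem_support_iff.2 hc))
    have h4 := T.shift H hm hmp hmq m0 n hm0v hnv (hsup m0 (mem_support_iff.2 hc)) (hsup n hn)
    rw [ht1] at h3 h4
    have hqp : (0 : ℤ) < a q := by exact_mod_cast hq0
    have h5 : t < 2 := by
      by_contra hcc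
      push Not at hcc
      have := mul_le_mul_of_nonneg_right hcc hqp.le
      linarith
    have h6 : -2 < t := by
      by_contra hcc
      push Not at hcc
      have := mul_le_mul_of_nonneg_right hcc hqp.le
      linarith
    have h7 : t ≠ 0 := by
      intro h0
      rw [h0, zero_mul, add_zero, hm0s] at ht1
      rw [h0, zero_mul, sub_zero, hm0s] at ht2
      refine hcon ⟨n, hnv, hsup n hn, ?_, ht1, ht2⟩
      by_contra hcc
      push Not at hcc
      apply hne
      have h8 := hsup n hn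
      rw [Finset.sum_eq_single_of_mem m (Finset.mem_univ m)
        (fun l _ hl => by rw [hcc l hl, zero_mul])] at h8
      have h9 : n m = u m := Nat.eq_of_mul_eq_mul_right (by omega) h8
      ext k
      by_cases hk : k = m
      · subst hk
        rw [h9, hm0, Finsupp.single_eq_same]
      · rw [hcc k hk, hm0, Finsupp.single_eq_of_ne hk]
    omega
  by_cases hex : ∃ n ∈ (f (J m)).support, n ≠ m0 ∧ (∀ l, v l = 0 → n l = 0) ∧
      ∑ l, (n l : ℤ) * xx l = ∑ l, (m0 l : ℤ) * xx l + 1 * a q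
  · obtain ⟨n, hn, hne, hnv, hnx⟩ := hex
    refine T.comp_ne (S.hf _) (H.hfv _) (H.hfy _) m0 hc hm0v 1 (Or.inl rfl) ?_
    intro n' hn' hne' hnv'
    obtain ⟨t, ht, htx⟩ := hshift n' hn' hne' hnv'
    rcases ht with rfl | rfl
    · exact htx
    · exfalso
      have h3 := T.shift H hm hmp hmq n n' hnv hnv' (hsup n hn) (hsup n' hn')
      linarith
  · refine T.comp_ne (S.hf _) (H.hfv _) (H.hfy _) m0 hc hm0v (-1) (Or.inr rfl) ?_
    intro n' hn' hne' hnv'
    obtain ⟨t, ht, htx⟩ := hshift n' hn' hne' hnv'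
    rcases ht with rfl | rfl
    · exact absurd ⟨n', hn', hne', hnv', htx⟩ hex
    · exact htx

/-- the second exponents are nonnegative -/
theorem St.yy_nonneg (T : St a u e v y p q X Y xx yy x0 y0) (S : Sys a d f J u)
    (H : Rel a e f v y) : ∀ l, v l ≠ 0 → 0 ≤ yy l := by
  classical
  by_contra hcon
  push Not at hcon
  obtain ⟨l1, hl1, hl1'⟩ := hcon
  have hpos : ∀ l, (0 : ℤ) < a l := fun l => by exact_mod_cast S.ha l
  have hap := T.ha p T.hvp
  have haq := T.ha q T.hvq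
  obtain ⟨S', hS'⟩ : ∃ S' : Finset (Fin N), ∀ l, l ∈ S' ↔ (v l ≠ 0 ∧ l ≠ p ∧ l ≠ q) :=
    ⟨Finset.univ.filter fun l => v l ≠ 0 ∧ l ≠ p ∧ l ≠ q, fun l => by simp⟩
  have hl1S : l1 ∈ S' := by
    rw [hS']
    refine ⟨hl1, ?_, ?_⟩
    · rintro rfl
      rw [T.yp] at hl1'
      exact lt_irrefl _ hl1'
    · rintro rfl
      rw [T.yq] at hl1'
      linarith
  obtain ⟨ms, hms, hmin⟩ := Finset.exists_min_image S' (fun l => (yy l : ℚ) / a l) ⟨l1, hl1S⟩
  have hmin' : ∀ l ∈ S', yy ms * a l ≤ yy l * a ms := by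
    intro l hl
    have h1 := hmin l hl
    have h2 : (0 : ℚ) < a ms := by exact_mod_cast S.ha ms
    have h3 : (0 : ℚ) < a l := by exact_mod_cast S.ha l
    rw [div_le_div_iff₀ h2 h3] at h1
    exact_mod_cast h1
  have hneg : yy ms < 0 := by
    have h1 := hmin' l1 hl1S
    have h2 : yy l1 * a ms < 0 := mul_neg_of_neg_of_pos hl1' (hpos ms)
    by_contra hcc
    push Not at hcc
    have := mul_nonneg hcc (hpos l1).le
    linarith
  obtain ⟨L, hL⟩ : ∃ L : Finset (Fin N), ∀ l, l ∈ L ↔ (l ∈ S' ∧ yy l * a ms = yy ms * a l) :=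
    ⟨S'.filter fun l => yy l * a ms = yy ms * a l, fun l => by simp⟩
  have hClosed : Closed a u L := by
    refine ⟨⟨ms, (hL ms).2 ⟨hms, rfl⟩⟩, fun i hi => ?_⟩
    obtain ⟨hiS, hiL⟩ := (hL i).1 hi
    obtain ⟨hvi, hip, hiq⟩ := (hS' i).1 hiS
    obtain ⟨n, hn, hnd, ⟨k, hki, hnk⟩, -, hny⟩ := T.exists_n S H hvi hip hiq
    have hw0 : ∀ l, v l ≠ 0 → l ∉ L → 0 < yy l * a ms - yy ms * a l := by
      intro l hl hlL
      by_cases hlp : l = p
      · subst hlp
        rw [T.yp, zero_mul, zero_sub]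
        have := mul_neg_of_neg_of_pos hneg (hpos l)
        linarith
      by_cases hlq : l = q
      · subst hlq
        rw [T.yq, one_mul]
        have := mul_neg_of_neg_of_pos hneg (hpos l)
        have := hpos ms
        linarith
      have hlS : l ∈ S' := (hS' l).2 ⟨hl, hlp, hlq⟩
      have h1 := hmin' l hlS
      have h2 : yy l * a ms ≠ yy ms * a l := fun h => hlL ((hL l).2 ⟨hlS, h⟩)
      have h3 := lt_of_le_of_ne h1 (Ne.symm h2)
      linarith
    have hsum : ∑ l, (n l : ℤ) * (yy l * a ms - yy ms * a l) = 0 := by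
      have e1 : ∑ l, (n l : ℤ) * (yy l * a ms - yy ms * a l) =
          (∑ l, (n l : ℤ) * yy l) * a ms - yy ms * ((∑ l, n l * a l : ℕ) : ℤ) := by
        push_cast
        rw [Finset.sum_mul, Finset.mul_sum, ← Finset.sum_sub_distrib]
        exact Finset.sum_congr rfl fun l _ => by ring
      rw [e1, hny, hnd]
      push_cast
      linear_combination (u i : ℤ) * hiL
    have hnn : ∀ l ∈ Finset.univ, 0 ≤ (n l : ℤ) * (yy l * a ms - yy ms * a l) := by
      intro l _
      by_cases hl : v l = 0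
      · rw [hn l hl]; simp
      · refine mul_nonneg (Int.natCast_nonneg _) ?_
        by_cases hlL : l ∈ L
        · rw [((hL l).1 hlL).2, sub_self]
        · exact (hw0 l hl hlL).le
    have hz := (Finset.sum_eq_zero_iff_of_nonneg hnn).1 hsum
    have hsup : ∀ l, l ∉ L → n l = 0 := by
      intro l hlL
      by_cases hl : v l = 0
      · exact hn l hl
      · have h1 := hz l (Finset.mem_univ l)
        rcases mul_eq_zero.1 h1 with h2 | h2
        · exact_mod_cast h2
        · exact absurd h2 (hw0 l hl hlL).ne'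
    refine ⟨n, ?_, k, ?_, hki, hnk⟩
    · rw [← hnd]
      exact Finset.sum_subset (Finset.subset_univ _) fun l _ hl => by rw [hsup l hl, zero_mul]
    · by_contra hkL
      exact hnk (hsup k hkL)
  obtain ⟨C, hCL, hC⟩ := exists_minimal hClosed
  have hCS : ∀ l ∈ C, v l ≠ 0 ∧ l ≠ p ∧ l ≠ q := fun l hl => (hS' l).1 ((hL l).1 (hCL hl)).1
  have hEC := T.hE C hCS
  have hmem : ∀ e', ∑ i ∈ C, (u i - 1) * (a i - 1) ≤ e' →
      ∃ m : Fin N → ℕ, ∑ k ∈ C, m k * a k = e' := fun e' he' =>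
    hC.mem_of_large (fun i hi => T.ha i (hCS i hi).1) (fun i _ k _ hik => T.hcop i k hik)
      (fun i hi => by have := T.hu i (hCS i hi).1; omega) he'
  obtain ⟨l0, hl0⟩ := hC.1.1
  obtain ⟨-, -, k0, hk0, hk0l, -⟩ := hC.1.2 l0 hl0
  have hprop : ∀ l ∈ C, yy l * a l0 = yy l0 * a l := by
    intro l hl
    have h1 := ((hL l).1 (hCL hl)).2
    have h2 := ((hL l0).1 (hCL hl0)).2
    have h3 : (yy l * a l0) * a ms = (yy l0 * a l) * a ms := by
      linear_combination (a l0 : ℤ) * h1 - (a l : ℤ) * h2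
    exact mul_right_cancel₀ (hpos ms).ne' h3
  obtain ⟨β, hβ⟩ : (a l0 : ℤ) ∣ yy l0 := by
    have h1 : IsCoprime (a l0 : ℤ) (a k0 : ℤ) :=
      Nat.isCoprime_iff_coprime.2 (T.hcop l0 k0 hk0l.symm)
    refine h1.dvd_of_dvd_mul_right ⟨yy k0, ?_⟩
    rw [← hprop k0 hk0, mul_comm]
  have hyyC : ∀ l ∈ C, yy l = a l * β := by
    intro l hl
    refine mul_right_cancel₀ (hpos l0).ne' ?_
    rw [hprop l hl, hβ]
    ring
  obtain ⟨α, hα⟩ : (a p : ℤ) ∣ 1 - β * a q := by
    have h1 : IsCoprime (a p : ℤ) (a l0 : ℤ) :=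
      Nat.isCoprime_iff_coprime.2 (T.hcop p l0 (hCS l0 hl0).2.1.symm)
    refine h1.dvd_of_dvd_mul_right ⟨xx l0, ?_⟩
    have := T.hdeg l0 (hCS l0 hl0).1
    rw [hyyC l0 hl0] at this
    linear_combination -this
  have hxxC : ∀ l ∈ C, xx l = a l * α := by
    intro l hl
    refine mul_right_cancel₀ (hpos p).ne' ?_
    have := T.hdeg l (hCS l hl).1
    rw [hyyC l hl] at this
    linear_combination this + (a l : ℤ) * hα
  -- monomials in `C`, `p`, `q`
  have hmon : ∀ e' s t : ℕ, ∑ i ∈ C, (u i - 1) * (a i - 1) ≤ e' → e' + s * a p + t * a q = e →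
      X ^ (e' * α + s) * Y ^ (e' * β + t) = 1 := by
    intro e' s t he' hest
    obtain ⟨m, hm⟩ := hmem e' he'
    have hs : ∀ {M : Type} [CommSemiring M] (g : Fin N → M), ∑ l, (((if l ∈ C then m l else 0) +
        (if l = p then s else 0) + (if l = q then t else 0) : ℕ) : M) * g l =
        ∑ l ∈ C, (m l : M) * g l + s * g p + t * g q := by
      intro M _ g
      push_cast
      simp only [add_mul, Finset.sum_add_distrib, ite_mul, zero_mul, Finset.sum_ite_eq',
        Finset.mem_univ, if_true, Finset.sum_ite_mem, Finset.univ_inter]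
    have h1 := T.rel H (fun l => (if l ∈ C then m l else 0) + (if l = p then s else 0) +
      (if l = q then t else 0)) (by
        intro l hl
        have h2 : l ≠ p := fun h => T.hvp (h ▸ hl)
        have h3 : l ≠ q := fun h => T.hvq (h ▸ hl)
        have h4 : l ∉ C := fun h => (hCS l h).1 hl
        simp [h2, h3, h4]) (by
        have := hs a
        simp only [Nat.cast_id] at this
        rw [this, hm, hest])
    rw [hs xx, hs yy, T.xp, T.xq, T.yp, T.yq] at h1
    have h2 : ∑ l ∈ C, (m l : ℤ) * xx l = e' * α := by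
      rw [← hm]
      push_cast
      rw [Finset.sum_mul]
      exact Finset.sum_congr rfl fun l hl => by rw [hxxC l hl]; ring
    have h3 : ∑ l ∈ C, (m l : ℤ) * yy l = e' * β := by
      rw [← hm]
      push_cast
      rw [Finset.sum_mul]
      exact Finset.sum_congr rfl fun l hl => by rw [hyyC l hl]; ring
    rw [h2, h3, mul_one, mul_zero, add_zero, mul_zero, add_zero, mul_one] at h1
    exact h1
  obtain ⟨A, hA⟩ : ∃ A, a p = A + 1 := ⟨a p - 1, by omega⟩
  obtain ⟨b, hb⟩ : ∃ b, a q = b + 1 := ⟨a q - 1, by omega⟩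
  have hbig : A + 1 ≤ A * b + 1 ∧ b + 1 ≤ A * b + 1 := by
    have h1 : 1 ≤ A := by omega
    have h2 : 1 ≤ b := by omega
    exact ⟨by nlinarith, by nlinarith⟩
  rw [hA, hb, Nat.add_sub_cancel, Nat.add_sub_cancel] at hEC
  have h1 := hmon e 0 0 (by omega) (by omega)
  have h2 := hmon (e - a p) 1 0 (by omega) (by omega)
  have h3 := hmon (e - a q) 0 1 (by omega) (by omega)
  obtain ⟨W, hW⟩ : ∃ W, W = X ^ α * Y ^ β := ⟨_, rfl⟩
  have hWz : ∀ z : ℤ, W ^ z = X ^ (z * α) * Y ^ (z * β) := by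
    intro z
    rw [hW, mul_zpow, ← zpow_mul, ← zpow_mul, mul_comm α, mul_comm β]
  have hXW : X = W ^ (a p : ℤ) := by
    rw [hWz]
    have e1 : ((e - a p : ℕ) : ℤ) = e - a p := by
      rw [Nat.cast_sub (by omega)]
    rw [e1] at h2
    have h4 : X ^ (((e : ℤ) - a p) * α + (1 : ℕ)) * Y ^ (((e : ℤ) - a p) * β + (0 : ℕ)) =
        (X ^ ((e : ℤ) * α + (0 : ℕ)) * Y ^ ((e : ℤ) * β + (0 : ℕ))) *
        (X * (X ^ ((a p : ℤ) * α) * Y ^ ((a p : ℤ) * β))⁻¹) := by
      rw [mul_inv, ← zpow_neg, ← zpow_neg]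
      have e2 : X ^ (((e : ℤ) - a p) * α + (1 : ℕ)) =
        X ^ ((e : ℤ) * α + (0 : ℕ)) * X * X ^ (-((a p : ℤ) * α)) := by
        rw [← zpow_add_one, ← zpow_add]
        congr 1
        push_cast
        ring
      have e3 : Y ^ (((e : ℤ) - a p) * β + (0 : ℕ)) =
        Y ^ ((e : ℤ) * β + (0 : ℕ)) * Y ^ (-((a p : ℤ) * β)) := by
        rw [← zpow_add]
        congr 1
        push_cast
        ring
      rw [e2, e3]
      simp only [mul_assoc, mul_left_comm, mul_comm]
    rw [h2, h1, one_mul] at h4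
    exact mul_inv_eq_one.1 h4.symm
  have hYW : Y = W ^ (a q : ℤ) := by
    rw [hWz]
    have e1 : ((e - a q : ℕ) : ℤ) = e - a q := by
      rw [Nat.cast_sub (by omega)]
    rw [e1] at h3
    have h4 : X ^ (((e : ℤ) - a q) * α + (0 : ℕ)) * Y ^ (((e : ℤ) - a q) * β + (1 : ℕ)) =
        (X ^ ((e : ℤ) * α + (0 : ℕ)) * Y ^ ((e : ℤ) * β + (0 : ℕ))) *
        (Y * (X ^ ((a q : ℤ) * α) * Y ^ ((a q : ℤ) * β))⁻¹) := by
      rw [mul_inv, ← zpow_neg, ← zpow_neg]
      have e2 : Y ^ (((e : ℤ) - a q) * β + (1 : ℕ)) =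
        Y ^ ((e : ℤ) * β + (0 : ℕ)) * Y * Y ^ (-((a q : ℤ) * β)) := by
        rw [← zpow_add_one, ← zpow_add]
        congr 1
        push_cast
        ring
      have e3 : X ^ (((e : ℤ) - a q) * α + (0 : ℕ)) =
        X ^ ((e : ℤ) * α + (0 : ℕ)) * X ^ (-((a q : ℤ) * α)) := by
        rw [← zpow_add]
        congr 1
        push_cast
        ring
      rw [e2, e3]
      simp only [mul_assoc, mul_left_comm, mul_comm]
    rw [h3, h1, one_mul] at h4
    exact mul_inv_eq_one.1 h4.symm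
  refine T.hne ?_
  rw [← zpow_natCast X, ← zpow_natCast Y]
  calc X ^ (a q : ℤ) = (W ^ (a p : ℤ)) ^ (a q : ℤ) := by rw [← hXW]
    _ = (W ^ (a q : ℤ)) ^ (a p : ℤ) := by rw [← zpow_mul, ← zpow_mul, mul_comm]
    _ = Y ^ (a p : ℤ) := by rw [← hYW]

/-- the last step: all exponents are nonnegative -/
theorem St.false (T : St a u e v y p q X Y xx yy x0 y0) (S : Sys a d f J u)
    (H : Rel a e f v y) {j : κ} {x : ℕ} (hx : x < 2 * a q) (hxd : x * a p = d j)
    (hc : coeff (Finsupp.single p x) (f j) ≠ 0) : False := by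
  classical
  have hyy := T.yy_nonneg S H
  have hxx := T.swap.yy_nonneg S H
  have hpos : ∀ l, (0 : ℤ) < a l := fun l => by exact_mod_cast S.ha l
  have hap := T.ha p T.hvp
  obtain ⟨m0, hm0⟩ : ∃ m0 : Fin N →₀ ℕ, m0 = Finsupp.single p x := ⟨_, rfl⟩
  rw [← hm0] at hc
  have hm0v : ∀ l, v l = 0 → m0 l = 0 := by
    intro l hl
    rw [hm0, Finsupp.single_eq_of_ne]
    intro h
    exact T.hvp (h ▸ hl)
  have hm0s : ∀ g : Fin N → ℤ, ∑ l, (m0 l : ℤ) * g l = x * g p := by
    intro g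
    rw [Finset.sum_eq_single_of_mem p (Finset.mem_univ p)
      (fun l _ hl => by rw [hm0, Finsupp.single_eq_of_ne hl]; simp), hm0,
      Finsupp.single_eq_same]
  have hsup : ∀ n ∈ (f j).support, ∑ l, n l * a l = x * a p := by
    intro n hn
    have := S.hf j (mem_support_iff.1 hn)
    rw [weight_eq] at this
    rw [this, hxd]
  refine T.swap.swap.comp_ne (S.hf _) (H.hfv _) (H.hfy _) m0 hc hm0v (-1) (Or.inr rfl) ?_
  intro n hn hne hnv
  have h1 := T.deg n hnv
  have h2 := T.deg m0 hm0v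
  rw [hsup n hn] at h1
  rw [hsup m0 (mem_support_iff.2 hc)] at h2
  obtain ⟨t, ht1, ht2⟩ := coset (T.hcop p q T.hpq) (S.ha q) (h1.trans h2.symm)
  rw [hm0s, T.yp, mul_zero, zero_sub] at ht2
  have h3 : 0 ≤ ∑ l, (n l : ℤ) * yy l := Finset.sum_nonneg fun l _ => by
    by_cases hl : v l = 0
    · rw [hnv l hl]; simp
    · exact mul_nonneg (Int.natCast_nonneg _) (hyy l hl)
  have h4 : 0 ≤ ∑ l, (n l : ℤ) * xx l := Finset.sum_nonneg fun l _ => by
    by_cases hl : v l = 0
    · rw [hnv l hl]; simp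
    · exact mul_nonneg (Int.natCast_nonneg _) (hxx l hl)
  have h5 : t ≤ 0 := by
    by_contra hcc
    push Not at hcc
    have := mul_pos hcc (hpos p)
    linarith
  have h6 : -2 < t := by
    by_contra hcc
    push Not at hcc
    have h7 := mul_le_mul_of_nonneg_right hcc (hpos q).le
    rw [hm0s, T.xp, mul_one] at ht1
    have h8 : (x : ℤ) < 2 * a q := by exact_mod_cast hx
    linarith
  have h7 : t ≠ 0 := by
    intro h0
    rw [h0, zero_mul, neg_zero] at ht2
    have hz := (Finset.sum_eq_zero_iff_of_nonneg (fun l _ => by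
      by_cases hl : v l = 0
      · rw [hnv l hl]; simp
      · exact mul_nonneg (Int.natCast_nonneg _) (hyy l hl))).1 ht2
    have h8 : ∀ l, l ≠ p → n l = 0 := by
      intro l hl
      by_contra hnl
      have hvl : v l ≠ 0 := fun h => hnl (hnv l h)
      have h9 := hz l (Finset.mem_univ l)
      rcases mul_eq_zero.1 h9 with h10 | h10
      · exact hnl (by exact_mod_cast h10)
      · have h11 := T.hdeg l hvl
        rw [h10, zero_mul, add_zero] at h11
        have h12 : (a p : ℤ) ∣ a l := ⟨xx l, by rw [← h11, mul_comm]⟩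
        have h13 : a p ∣ a l := by exact_mod_cast h12
        have h14 := Nat.Coprime.eq_one_of_dvd (T.hcop p l (Ne.symm hl)) h13
        omega
    apply hne
    have h9 := hsup n hn
    rw [Finset.sum_eq_single_of_mem p (Finset.mem_univ p)
      (fun l _ hl => by rw [h8 l hl, zero_mul])] at h9
    have h10 : n p = x := Nat.eq_of_mul_eq_mul_right (by omega) h9
    ext k
    by_cases hk : k = p
    · subst hk
      rw [h10, hm0, Finsupp.single_eq_same]
    · rw [h8 k hk, hm0, Finsupp.single_eq_of_ne hk]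
  have h8 : t = -1 := by omega
  rw [ht1, h8]

theorem mono (H : Rel a e f v y) (i k l : Fin N) (s t r : ℕ)
    (h : s * a i + t * a k + r * a l = e) :
    y i ^ s * y k ^ t * y l ^ r = algebraMap ℂ B (v i) ^ s * algebraMap ℂ B (v k) ^ t *
      algebraMap ℂ B (v l) ^ r := by
  have h1 : IsWeightedHomogeneous a (X i ^ s * X k ^ t * X l ^ r : MvPolynomial (Fin N) ℂ) e := by
    rw [← h]
    exact (hom_two a i k s t).mul (hom_pow a l r)
  have h2 := H.hs _ h1
  simpa using h2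

theorem rat (H : Rel a e f v y) {i k : Fin N} (hi : v i ≠ 0) (hk : v k ≠ 0)
    {X Y : Bˣ} (hX : y i = X * algebraMap ℂ B (v i)) (hY : y k = Y * algebraMap ℂ B (v k))
    (l : Fin N) (s t r : ℕ) (h : s * a i + t * a k + r * a l = e) :
    ((X ^ s * Y ^ t : Bˣ) : B) * y l ^ r = algebraMap ℂ B (v l) ^ r := by
  have h1 := mono H i k l s t r h
  have h2 : IsUnit (algebraMap ℂ B (v i) ^ s * algebraMap ℂ B (v k) ^ t) :=
    ((unitV hi).pow s).mul ((unitV hk).pow t)
  refine h2.mul_left_cancel ?_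
  rw [← h1, hX, hY]
  push_cast
  ring

theorem t_TwoD : TwoD := by
  classical
  intro N κ B _ _ a d e f J u v y S H hv1 hu1 p q hpq hvp hvq hyp hyq hoth hE hj
  obtain ⟨X, hX⟩ := exists_ratio hvp hyp
  obtain ⟨Y, hY⟩ := exists_ratio hvq hyq
  have hap := hv1 p hvp
  have haq := hv1 q hvq
  have hcop := S.hcop p q hpq
  by_cases hXY : X ^ a q = Y ^ a p
  · obtain ⟨T, hTX, hTY⟩ := root hcop hXY
    have hTe : T ^ e = 1 := by
      obtain ⟨s, t, hst⟩ := rep hcop (t := e) (by omega)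
      have h1 := rat H hvp hvq hX hY p s t 0 (by rw [← hst]; ring)
      rw [pow_zero, pow_zero, mul_one, hTX, hTY, ← pow_mul, ← pow_mul, ← pow_add, hst] at h1
      exact Units.ext h1
    refine ⟨T, fun l => ?_⟩
    by_cases hli : l = p
    · rw [hli, hX, hTX]; push_cast; rfl
    by_cases hlk : l = q
    · rw [hlk, hY, hTY]; push_cast; rfl
    rcases hoth l hli hlk with h1 | h1
    · rw [h1.1, h1.2, map_zero, mul_zero]
    · obtain ⟨s, t, hst⟩ := rep hcop (t := e - a l) (by omega)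
      have h2 := rat H hvp hvq hX hY l s t 1 (by
        have : s * a p + t * a q = a p * s + a q * t := by ring
        omega)
      rw [hTX, hTY, ← pow_mul, ← pow_mul, ← pow_add, hst, pow_one, pow_one] at h2
      rw [← h2, ← Units.val_pow_eq_pow_val, ← mul_assoc, ← Units.val_mul, ← pow_add,
        Nat.add_sub_cancel' (by omega), hTe, Units.val_one, one_mul]
  · exfalso
    obtain ⟨x0, y0, h0⟩ := rep hcop (t := e) (by omega)
    have hrel : ∀ s t : ℕ, s * a p + t * a q = e → X ^ s * Y ^ t = 1 := by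
      intro s t hst
      have h1 := rat H hvp hvq hX hY p s t 0 (by rw [← hst]; ring)
      rw [pow_zero, pow_zero, mul_one] at h1
      exact Units.ext h1
    have h0' : x0 * a p + y0 * a q = e := by rw [← h0]; ring
    have hx0 : x0 < a q := by
      by_contra hcc
      push Not at hcc
      obtain ⟨w, hw⟩ := Nat.exists_eq_add_of_le hcc
      have h1 := hrel _ _ h0'
      have h2 := hrel w (y0 + a p) (by rw [← h0', hw]; ring)
      rw [hw, pow_add] at h1
      rw [pow_add] at h2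
      refine hXY ?_
      have h3 : X ^ w * Y ^ y0 * X ^ a q = X ^ w * Y ^ y0 * Y ^ a p := by
        rw [mul_assoc (X ^ w) (Y ^ y0) (Y ^ a p), h2, ← h1]
        simp only [mul_assoc, mul_left_comm, mul_comm]
      exact mul_left_cancel h3
    have hy0 : y0 < a p := by
      by_contra hcc
      push Not at hcc
      obtain ⟨w, hw⟩ := Nat.exists_eq_add_of_le hcc
      have h1 := hrel _ _ h0'
      have h2 := hrel (x0 + a q) w (by rw [← h0', hw]; ring)
      rw [hw, pow_add] at h1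
      rw [pow_add] at h2
      refine hXY ?_
      have h3 : X ^ x0 * Y ^ w * X ^ a q = X ^ x0 * Y ^ w * Y ^ a p := by
        have e1 : X ^ x0 * Y ^ w * X ^ a q = X ^ x0 * X ^ a q * Y ^ w := by
          simp only [mul_assoc, mul_left_comm, mul_comm]
        rw [e1, h2, ← h1]
        simp only [mul_assoc, mul_comm]
      exact mul_left_cancel h3
    have hch : ∀ l, ∃ c : ℤ × ℤ, (l = p → c.1 = 1 ∧ c.2 = 0) ∧ (l = q → c.1 = 0 ∧ c.2 = 1) ∧
        (v l ≠ 0 → c.1 * a p + c.2 * a q = a l ∧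
          y l = ((X ^ c.1 * Y ^ c.2 : Bˣ) : B) * algebraMap ℂ B (v l)) ∧
        (v l ≠ 0 → l ≠ p → l ≠ q → c.1 ≤ x0 ∧ c.2 ≤ y0) := by
      intro l
      by_cases hli : l = p
      · subst hli
        exact ⟨(1, 0), fun _ => ⟨rfl, rfl⟩, fun h => absurd h hpq,
          fun _ => ⟨by ring, by simpa using hX⟩, fun _ h => absurd rfl h⟩
      by_cases hlk : l = q
      · subst hlk
        exact ⟨(0, 1), fun h => absurd h hpq.symm, fun _ => ⟨rfl, rfl⟩,
          fun _ => ⟨by ring, by simpa using hY⟩, fun _ _ h => absurd rfl h⟩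
      by_cases hvl : v l = 0
      · exact ⟨(0, 0), fun h => absurd h hli, fun h => absurd h hlk, fun h => absurd hvl h,
          fun h => absurd hvl h⟩
      have h1 : a l + (a p - 1) * (a q - 1) ≤ e :=
        (hoth l hli hlk).resolve_left fun h => hvl h.1
      obtain ⟨s, t, hst⟩ := rep hcop (t := e - a l) (by omega)
      have h2 := rat H hvp hvq hX hY l s t 1 (by
        have : s * a p + t * a q = a p * s + a q * t := by ring
        omega)
      rw [pow_one, pow_one] at h2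
      refine ⟨((x0 : ℤ) - s, (y0 : ℤ) - t), fun h => absurd h hli, fun h => absurd h hlk,
        fun _ => ⟨?_, ?_⟩, fun _ _ _ => ⟨?_, ?_⟩⟩
      · have h3 : ((a p * s + a q * t : ℕ) : ℤ) = (e : ℤ) - a l := by
          rw [hst, Nat.cast_sub (by omega)]
        have h4 : ((x0 * a p + y0 * a q : ℕ) : ℤ) = e := by rw [h0']
        push_cast at h3 h4
        show ((x0 : ℤ) - s) * a p + ((y0 : ℤ) - t) * a q = a l
        linear_combination h4 - h3
      · have h3 : X ^ ((x0 : ℤ) - s) * Y ^ ((y0 : ℤ) - t) = (X ^ s * Y ^ t)⁻¹ := by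
          rw [zpow_sub, zpow_sub, zpow_natCast, zpow_natCast, zpow_natCast, zpow_natCast, mul_inv]
          have h4 := hrel _ _ h0'
          calc X ^ x0 * (X ^ s)⁻¹ * (Y ^ y0 * (Y ^ t)⁻¹)
              = (X ^ x0 * Y ^ y0) * ((X ^ s)⁻¹ * (Y ^ t)⁻¹) := by
                simp only [mul_assoc, mul_left_comm]
            _ = _ := by rw [h4, one_mul]
        show y l = ((X ^ ((x0 : ℤ) - s) * Y ^ ((y0 : ℤ) - t) : Bˣ) : B) * algebraMap ℂ B (v l)
        rw [h3, ← h2, ← mul_assoc, Units.inv_mul, one_mul]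
      · show (x0 : ℤ) - s ≤ x0
        linarith [Int.natCast_nonneg s]
      · show (y0 : ℤ) - t ≤ y0
        linarith [Int.natCast_nonneg t]
    choose c hc1 hc2 hc3 hc4 using hch
    have T : St a u e v y p q X Y (fun l => (c l).1) (fun l => (c l).2) x0 y0 :=
      { hpq := hpq
        hvp := hvp
        hvq := hvq
        ha := hv1
        hu := hu1
        hcop := S.hcop
        hz := by
          intro l hvl
          have hli : l ≠ p := fun h => hvp (h ▸ hvl)
          have hlk : l ≠ q := fun h => hvq (h ▸ hvl)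
          rcases hoth l hli hlk with h1 | h1
          · exact h1.2
          · obtain ⟨s, t, hst⟩ := rep hcop (t := e - a l) (by omega)
            have h2 := rat H hvp hvq hX hY l s t 1 (by
              have : s * a p + t * a q = a p * s + a q * t := by ring
              omega)
            rw [pow_one, pow_one, hvl, map_zero] at h2
            exact (Units.isUnit _).mul_right_eq_zero.1 h2
        hdeg := fun l hl => (hc3 l hl).1
        hval := fun l hl => (hc3 l hl).2
        xp := (hc1 p rfl).1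
        yp := (hc1 p rfl).2
        xq := (hc2 q rfl).1
        yq := (hc2 q rfl).2
        h0 := h0'
        hx0 := hx0
        hy0 := hy0
        hle := hc4
        hE := by
          intro C hC
          refine le_trans ?_ hE
          have h1 : ∑ l ∈ C, (u l - 1) * (a l - 1) ≤
              ∑ l ∈ Finset.univ.filter (fun l => v l ≠ 0 ∧ l ≠ p ∧ l ≠ q),
                (u l - 1) * (a l - 1) :=
            Finset.sum_le_sum_of_subset fun l hl => by
              rw [Finset.mem_filter]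
              exact ⟨Finset.mem_univ l, hC l hl⟩
          omega
        hne := hXY }
    obtain ⟨j, x, hx, hxd, hc⟩ := hj
    exact T.false S H hx hxd hc

end Pool.Agent.K3h35.WF
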